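import Pool.Agent.Q229.JE.Cplx
import Pool.Agent.Q229.JE.WClose

/-!
# Exponentially good approximation by short periodic words
-/

set_option autoImplicit false

namespace Pool.Agent.Q229.JE

open Finset Filter Topology Pool.Agent.Q120.JS

lemma cc_zero_le {S t s0 : ℝ} (ht : t ≤ 0) (hS : s0 ≤ S) (w : List Bool) :
    cc 0 S t w ≤ Real.exp (-(w.length * s0)) := by
  unfold cc DD
  apply Real.exp_le_exp.2
  have h1 : (0 : ℝ) ≤ w.length := Nat.cast_nonneg _
  have h2 : (0 : ℝ) ≤ (w.count true : ℕ) := Nat.cast_nonneg _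
  nlinarith [mul_le_mul_of_nonneg_left hS h1, mul_nonneg h2 (neg_nonneg.2 ht)]

theorem approx {S t C s0 : ℝ} (H : Wk 0 S t C) (ht : t ≤ 0) (hS : s0 ≤ S)
    {L : ℕ} (hL : 9 * C ^ 2 * Real.exp (-(L * s0)) ≤ 1 / 2) :
    ∃ Q : List Bool, 1 ≤ Q.length ∧ Q.length ≤ L + 1 ∧
      Q.length * S - Q.count true * t - Real.log (lam Q) ≤ 18 * C ^ 2 * Real.exp (-(L * s0)) := by
  have hC := H.hC
  have hC0 : 0 < C := by linarith
  set E := Real.exp (-(L * s0)) with hE
  have hE0 : 0 < E := Real.exp_pos _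
  have hC2 : 1 ≤ C ^ 2 := one_le_pow₀ hC
  have hE18 : E ≤ 1 / 18 := by nlinarith
  set n := 2 * L + 1 with hn
  set δ : ℝ := 1 / (4 * (2 * 3 ^ n) ^ 2) with hδ
  have hδ0 : 0 < δ := by positivity
  set ε := min (δ / 4) (min E (1 / 4)) with hε
  have hε0 : 0 < ε := lt_min (by positivity) (lt_min hE0 (by norm_num))
  have hε1 : ε ≤ δ / 4 := min_le_left _ _
  have hε2 : ε ≤ E := (min_le_right _ _).trans (min_le_left _ _)
  have hε3 : ε ≤ 1 / 4 := (min_le_right _ _).trans (min_le_right _ _)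
  obtain ⟨x, z, hz0, hz1, hz2⟩ := Wexists_extremal H (n := n) (by omega) hε0 (by linarith)
  have hB := bal_of_traj H hz0 hz1 hε0.le hε1 hz2
  obtain ⟨i, j, hij, hjL, hrep⟩ := repeat_of_bal hB
  have htr : WTraj 0 S t ε n x z := ⟨hz0, hz1, hz2⟩
  obtain ⟨q, hq⟩ := Nat.exists_eq_add_of_le hij.le
  set Δ := cc 0 S t (fac x i L) ^ 2 with hΔ
  have hΔ0 : 0 ≤ Δ := by positivity
  have hΔE : Δ ≤ E ^ 2 := by
    have h1 := cc_zero_le ht hS (fac x i L)
    rw [length_fac] at h1
    exact pow_le_pow_left₀ (cc_pos _).le h1 2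
  have hCE : C ^ 2 * E ≤ 1 / 18 := by linarith
  have h4 : 4 * C ^ 2 * Δ ≤ 4 * C ^ 2 * E * E := by nlinarith
  have hCEp : 0 < C ^ 2 * E := by positivity
  have h5 : 4 * C ^ 2 * E * E ≤ 1 / 4 := by nlinarith
  have hcl := Wclosing H htr hε3 hq (by omega) hrep hΔ (h4.trans h5)
  have hsq : Real.sqrt (12 * C ^ 3 * Δ) ≤ 4 * (C ^ 2 * E) := by
    apply Real.sqrt_le_iff.2
    refine ⟨by positivity, ?_⟩
    have h6 : 12 * C ^ 3 * Δ ≤ 12 * C ^ 3 * E ^ 2 :=
      mul_le_mul_of_nonneg_left hΔE (by positivity)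
    have h7 : 12 * C ^ 3 ≤ 16 * C ^ 4 := by
      have : C ^ 3 ≤ C ^ 4 := pow_le_pow_right₀ hC (by norm_num)
      have : 0 < C ^ 3 := by positivity
      nlinarith
    have h8 := mul_le_mul_of_nonneg_right h7 (sq_nonneg E)
    calc 12 * C ^ 3 * Δ ≤ 12 * C ^ 3 * E ^ 2 := h6
      _ ≤ 16 * C ^ 4 * E ^ 2 := h8
      _ = (4 * (C ^ 2 * E)) ^ 2 := by ring
  set g := fac x (i + L) q with hg
  have hgl : g.length = q := length_fac _ _ _
  set Z := 9 * C ^ 2 * E with hZ
  have hZ0 : 0 < Z := by positivity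
  have hlow : 1 - Z ≤ cc 0 S t g * lam g := by
    refine le_trans ?_ hcl
    have : E ≤ C ^ 2 * E := by nlinarith
    nlinarith
  have hcl0 : 0 < 1 - Z := by linarith
  have hlog : -(2 * Z) ≤ Real.log (cc 0 S t g * lam g) := by
    have h1 := Real.log_le_log hcl0 hlow
    refine le_trans ?_ h1
    have h2 := Real.one_sub_inv_le_log_of_pos hcl0
    refine le_trans ?_ h2
    have h3 : (1 - Z)⁻¹ ≤ 1 + 2 * Z := by
      rw [inv_le_comm₀ hcl0 (by positivity), inv_eq_one_div, div_le_iff₀ (by positivity)]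
      nlinarith
    linarith
  have hlam0 : 0 < lam g := by linarith [one_le_lam g]
  rw [Real.log_mul (cc_pos g).ne' hlam0.ne'] at hlog
  have hlc : Real.log (cc 0 S t g) = -(g.length * S) + g.count true * t := by
    unfold cc DD
    rw [Real.log_exp]
    ring
  rw [hlc] at hlog
  refine ⟨g, by omega, by omega, ?_⟩
  linarith

/-- the logarithm of the joint spectral radius as a function of `t = log α` -/
noncomputable def G (t : ℝ) : ℝ := FF (Real.exp_pos t)

lemma FF_congr {a b : ℝ} (h : a = b) (ha : 0 < a) (hb : 0 < b) : FF ha = FF hb := by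
  subst h
  rfl

lemma G_log {α : ℝ} (hα : 0 < α) : G (Real.log α) = FF hα :=
  FF_congr (Real.exp_log hα) _ _

lemma G_nonneg (t : ℝ) : 0 ≤ G t := FF_nonneg _

lemma am_mono {a b : ℝ} (ha : 0 < a) (hab : a ≤ b) (n : ℕ) : am a n ≤ am b n := by
  refine le_trans ?_ (le_am b n (exists_max a n).choose)
  exact mul_le_mul_of_nonneg_right (pow_le_pow_left₀ ha.le hab _) (sg_nonneg _)

lemma FF_mono {a b : ℝ} (ha : 0 < a) (hb : 0 < b) (hab : a ≤ b) : FF ha ≤ FF hb := by
  refine le_of_tendsto_of_tendsto' (FF_tendsto ha) (FF_tendsto hb) fun n => ?_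
  refine div_le_div_of_nonneg_right ?_ (Nat.cast_nonneg n)
  exact Real.log_le_log (am_pos ha n) (am_mono ha hab n)

lemma G_mono : Monotone G := fun _ _ h => FF_mono _ _ (Real.exp_le_exp.2 h)

lemma word_le (t : ℝ) (w : List Bool) :
    w.count true * t + Real.log (lam w) ≤ w.length * G t := by
  have h := lam_le (Real.exp_pos t) w
  have hlam0 : 0 < lam w := by linarith [one_le_lam w]
  have h2 := Real.log_le_log (by positivity) h
  rw [Real.log_mul (by positivity) hlam0.ne', Real.log_pow, Real.log_exp, Real.log_exp] at h2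
  exact h2

lemma tr_word (m : ℕ) : tr (List.replicate m false ++ [true]) = m + 2 := by
  have h : M (List.replicate m false) = !![1, (m : ℝ); 0, 1] := by
    induction m with
    | zero => simp [M]; ext i j; fin_cases i <;> fin_cases j <;> simp
    | succ n ih =>
      rw [List.replicate_succ, M, ih, A0]
      ext i j
      fin_cases i <;> fin_cases j <;> simp [Matrix.mul_apply, Fin.sum_univ_two]
      ring
  unfold tr
  rw [M_append, M_single, h, A0]
  simp [Matrix.mul_apply, Fin.sum_univ_two]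
  ring

lemma G_pos (t : ℝ) : 0 < G t := by
  obtain ⟨m, hm⟩ := exists_nat_gt (2 * Real.exp (-t))
  have h := word_le t (List.replicate m false ++ [true])
  have h1 := tr_le_lam (List.replicate m false ++ [true])
  rw [tr_word] at h1
  have hc : (List.replicate m false ++ [true]).count true = 1 := by
    simp [List.count_replicate]
  have hl : (List.replicate m false ++ [true]).length = m + 1 := by simp
  rw [hc, hl] at h
  have h2 : Real.exp (-t) < lam (List.replicate m false ++ [true]) := by linarith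
  have h3 := Real.log_lt_log (Real.exp_pos _) h2
  rw [Real.log_exp] at h3
  have h4 : 0 < ((m + 1 : ℕ) : ℝ) * G t := by
    simp only [Nat.cast_one, one_mul] at h
    linarith
  exact pos_of_mul_pos_right h4 (Nat.cast_nonneg _)

lemma cc_zero_eq {α : ℝ} (hα : 0 < α) (S : ℝ) (w : List Bool) :
    cc 0 S (Real.log α) w = Real.exp (-(w.length * S)) * α ^ (w.count true) := by
  unfold cc DD
  rw [Real.exp_add, zero_mul, sub_zero, mul_comm _ (Real.log α), Real.exp_mul, Real.exp_log hα,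
    Real.rpow_natCast]

lemma wk_of {α : ℝ} (hα : 0 < α) {C : ℝ} (hC1 : 1 ≤ C) (hC : CC hα ≤ C) :
    Wk 0 (FF hα) (Real.log α) C := by
  refine ⟨hC1, ?_, ?_, ?_⟩
  · intro w
    rw [cc_zero_eq hα]
    have h := mul_le_mul_of_nonneg_left (lam_le hα w) (Real.exp_pos (-(w.length * FF hα))).le
    rw [← Real.exp_add, neg_add_cancel, Real.exp_zero] at h
    linarith
  · intro w
    rw [cc_zero_eq hα]
    have h := mul_le_mul_of_nonneg_left (val_le' hα w) (Real.exp_pos (-(w.length * FF hα))).le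
    have e : Real.exp (-(w.length * FF hα)) * (CC hα * Real.exp (w.length * FF hα)) = CC hα := by
      rw [mul_left_comm, ← Real.exp_add, neg_add_cancel, Real.exp_zero, mul_one]
    rw [e] at h
    unfold Q120.JS.val at h
    linarith
  · obtain ⟨x, hx⟩ := exists_logExt hα
    refine ⟨x, ?_⟩
    have h1 := hx.sub_const (FF hα)
    rw [sub_self] at h1
    refine h1.congr' ?_
    filter_upwards [eventually_gt_atTop 0] with n hn
    have hn' : (n : ℝ) ≠ 0 := by exact_mod_cast hn.ne'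
    have hv := val_pos hα (fac x 0 n)
    have e : cc 0 (FF hα) (Real.log α) (fac x 0 n) * sg (fac x 0 n) =
        Real.exp (-(n * FF hα)) * Q120.JS.val α (fac x 0 n) := by
      rw [cc_zero_eq hα, mul_assoc, length_fac]
      rfl
    rw [e, Real.log_mul (Real.exp_pos _).ne' hv.ne', Real.log_exp]
    field_simp
    ring

/-- uniform approximation -/
theorem approx_G (T : ℝ) : ∃ s0 K : ℝ, 0 < s0 ∧ 0 < K ∧ ∃ L0 : ℕ, ∀ t ∈ Set.Icc (-T) 0,
    ∀ L : ℕ, L0 ≤ L → ∃ Q : List Bool, 1 ≤ Q.length ∧ Q.length ≤ L + 1 ∧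
      Q.length * G t - Q.count true * t - Real.log (lam Q) ≤ K * Real.exp (-(L * s0)) := by
  set s0 := G (-T) with hs0
  have hs : 0 < s0 := G_pos _
  set C := max 1 (2 * Real.exp (2 * G 0) / Real.exp (-T)) with hC
  have hC1 : 1 ≤ C := le_max_left _ _
  have hC0 : 0 < C := by linarith
  obtain ⟨L0, hL0⟩ : ∃ L0 : ℕ, ∀ L : ℕ, L0 ≤ L → 9 * C ^ 2 * Real.exp (-(L * s0)) ≤ 1 / 2 := by
    have h1 : Tendsto (fun L : ℕ => -((L : ℝ) * s0)) atTop atBot := by
      rw [tendsto_neg_atBot_iff]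
      exact tendsto_natCast_atTop_atTop.atTop_mul_const hs
    have h2 := (Real.tendsto_exp_atBot.comp h1).const_mul (9 * C ^ 2)
    rw [mul_zero] at h2
    obtain ⟨L1, h⟩ := eventually_atTop.1 (h2.eventually (gt_mem_nhds (show (0 : ℝ) < 1 / 2 by norm_num)))
    exact ⟨L1, fun L hL => (h L hL).le⟩
  refine ⟨s0, 18 * C ^ 2, hs, by positivity, L0, fun t ht L hL => ?_⟩
  have hCC : CC (Real.exp_pos t) ≤ C := by
    refine le_trans ?_ (le_max_right _ _)
    unfold CC
    apply div_le_div₀ (by positivity) _ (Real.exp_pos _) (Real.exp_le_exp.2 ht.1)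
    have : G t ≤ G 0 := G_mono ht.2
    have h2 : Real.exp (2 * FF (Real.exp_pos t)) ≤ Real.exp (2 * G 0) :=
      Real.exp_le_exp.2 (by change 2 * G t ≤ 2 * G 0; linarith)
    linarith
  have H := wk_of (Real.exp_pos t) hC1 hCC
  rw [Real.log_exp] at H
  exact approx H ht.2 (G_mono ht.1) (hL0 L hL)

/-- subgradients from optimal ratios -/
lemma subgrad {α r : ℝ} (hα : 0 < α) {x : ℕ → Bool} (hx : LogExt hα x) (hr : RatioTo x r) (t' : ℝ) :
    G (Real.log α) + r * (t' - Real.log α) ≤ G t' := by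
  have h := compare hα (Real.exp_pos t') hx hr
  rw [Real.log_exp] at h
  rw [G_log hα]
  have e : G t' = FF (Real.exp_pos t') := rfl
  rw [e]
  linarith

end Pool.Agent.Q229.JE
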