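import Mathlib

/-!
# Dimension zero from exponentially small coverings
-/

set_option autoImplicit false

namespace Pool.Agent.Q229.JE

open MeasureTheory Filter Topology Set
open scoped ENNReal NNReal

lemma summable_aux {K c d : ℝ} (hK : 0 ≤ K) (hc : 0 < c) (hd : 0 < d) :
    Summable fun M : ℕ => (2 * ((M : ℝ) + 1) ^ 2) * (K * Real.exp (-c * M)) ^ d := by
  have hcd : 0 < c * d := mul_pos hc hd
  have h0 := Real.summable_pow_mul_exp_neg_nat_mul 0 hcd
  have h1 := Real.summable_pow_mul_exp_neg_nat_mul 1 hcd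
  have h2 := Real.summable_pow_mul_exp_neg_nat_mul 2 hcd
  have h3 := ((h2.add ((h1.mul_left 2).add h0)).mul_left (2 * K ^ d))
  refine h3.congr fun M => ?_
  rw [Real.mul_rpow hK (Real.exp_pos _).le, ← Real.exp_mul]
  have e : -c * M * d = -(c * d) * M := by ring
  rw [e]
  ring

theorem dimH_zero_of_cover {S : Set ℝ} {K c : ℝ} (hK : 0 ≤ K) (hc : 0 < c)
    (B : (M : ℕ) → Fin (M + 1) × Fin (M + 1) × Bool → Set ℝ)
    (hB : ∀ M i, ∀ x ∈ B M i, ∀ y ∈ B M i, |x - y| ≤ K * Real.exp (-c * M))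
    (hS : ∀ t ∈ S, ∀ N : ℕ, ∃ M, N ≤ M ∧ ∃ i, t ∈ B M i) : dimH S = 0 := by
  have hdiam : ∀ M i, Metric.ediam (B M i) ≤ ENNReal.ofReal (K * Real.exp (-c * M)) := by
    intro M i
    apply Metric.ediam_le
    intro x hx y hy
    rw [edist_dist, Real.dist_eq]
    exact ENNReal.ofReal_le_ofReal (hB M i x hx y hy)
  have key : ∀ d : ℝ≥0, 0 < d → μH[d] S = 0 := by
    intro d hd
    have hd' : (0 : ℝ) < d := hd
    set f : ℕ → ℝ≥0∞ := fun M => ENNReal.ofReal ((2 * ((M : ℝ) + 1) ^ 2) *
      (K * Real.exp (-c * M)) ^ (d : ℝ)) with hf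
    have hfs : ∑' M, f M ≠ ∞ := (summable_aux hK hc hd').tsum_ofReal_ne_top
    have htail := ENNReal.tendsto_sum_nat_add f hfs
    have hr : Tendsto (fun N : ℕ => ENNReal.ofReal (K * Real.exp (-c * N))) atTop (𝓝 0) := by
      rw [← ENNReal.ofReal_zero]
      apply ENNReal.tendsto_ofReal
      have h1 : Tendsto (fun N : ℕ => -c * (N : ℝ)) atTop atBot :=
        tendsto_natCast_atTop_atTop.const_mul_atTop_of_neg (by linarith)
      have h2 := (Real.tendsto_exp_atBot.comp h1).const_mul K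
      rw [mul_zero] at h2
      exact h2
    have hle := Measure.hausdorffMeasure_le_liminf_tsum (ι := fun N : ℕ => Σ M : ℕ, Fin (M + N + 1) ×
      Fin (M + N + 1) × Bool) (d : ℝ) S (l := atTop)
      (fun N : ℕ => ENNReal.ofReal (K * Real.exp (-c * N))) hr
      (fun N i => B (i.1 + N) i.2)
      (by
        filter_upwards with N
        rintro ⟨M, i⟩
        refine (hdiam _ _).trans (ENNReal.ofReal_le_ofReal ?_)
        apply mul_le_mul_of_nonneg_left _ hK
        apply Real.exp_le_exp.2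
        have : (0 : ℝ) ≤ M := Nat.cast_nonneg M
        push_cast
        nlinarith)
      (by
        filter_upwards with N
        intro t ht
        obtain ⟨M, hNM, i, hi⟩ := hS t ht N
        obtain ⟨M', rfl⟩ := Nat.exists_eq_add_of_le' hNM
        rw [mem_iUnion]
        exact ⟨⟨M', i⟩, hi⟩)
    have hsum : ∀ N : ℕ, ∑' i : Σ M : ℕ, Fin (M + N + 1) × Fin (M + N + 1) × Bool,
        Metric.ediam (B (i.1 + N) i.2) ^ (d : ℝ) ≤ ∑' M, f (M + N) := by
      intro N
      rw [ENNReal.tsum_sigma']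
      refine ENNReal.tsum_le_tsum fun M => ?_
      rw [tsum_fintype]
      have h1 : ∀ i ∈ (Finset.univ : Finset (Fin (M + N + 1) × Fin (M + N + 1) × Bool)),
          Metric.ediam (B (M + N) i) ^ (d : ℝ) ≤
          ENNReal.ofReal ((K * Real.exp (-c * ((M + N : ℕ) : ℝ))) ^ (d : ℝ)) := by
        intro i _
        rw [← ENNReal.ofReal_rpow_of_nonneg (by positivity) hd'.le]
        exact ENNReal.rpow_le_rpow (hdiam _ _) hd'.le
      refine (Finset.sum_le_card_nsmul _ _ _ h1).trans ?_
      rw [Finset.card_univ, Fintype.card_prod, Fintype.card_prod, Fintype.card_fin,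
        Fintype.card_bool, nsmul_eq_mul, hf]
      simp only
      rw [ENNReal.ofReal_mul (by positivity)]
      apply mul_le_mul_left
      rw [← ENNReal.ofReal_natCast]
      apply ENNReal.ofReal_le_ofReal
      push_cast
      apply le_of_eq
      ring
    have hlim : Tendsto (fun N : ℕ => ∑' i : Σ M : ℕ, Fin (M + N + 1) × Fin (M + N + 1) × Bool,
        Metric.ediam (B (i.1 + N) i.2) ^ (d : ℝ)) atTop (𝓝 0) :=
      tendsto_of_tendsto_of_tendsto_of_le_of_le tendsto_const_nhds htail
        (fun _ => zero_le) hsum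
    rw [hlim.liminf_eq] at hle
    exact le_antisymm hle zero_le
  have h2 : ∀ d : ℝ≥0, 0 < d → dimH S ≤ d := by
    intro d hd
    apply dimH_le_of_hausdorffMeasure_ne_top
    rw [key d hd]
    exact ENNReal.zero_ne_top
  refine le_antisymm ?_ zero_le
  refine ENNReal.le_of_forall_pos_le_add fun ε hε _ => ?_
  rw [zero_add]
  exact h2 ε hε

end Pool.Agent.Q229.JE
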