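import Pool.Agent.Q229.JE.Exch

/-!
# Complexity of words without `0p0` and `1p1`
-/

set_option autoImplicit false

namespace Pool.Agent.Q229.JE

open Finset Pool.Agent.Q120.JS

lemma common_prefix : ∀ (u u' : List Bool), u.length = u'.length → u ≠ u' →
    ∃ s a r r', u = s ++ a :: r ∧ u' = s ++ (!a) :: r' := by
  intro u
  induction u with
  | nil =>
    intro u' h hne
    cases u' with
    | nil => exact absurd rfl hne
    | cons b v => simp at h
  | cons a v ih =>
    intro u' h hne
    cases u' with
    | nil => simp at h
    | cons b v' =>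
      by_cases hab : a = b
      · subst hab
        obtain ⟨s, c, r, r', h1, h2⟩ := ih v' (by simpa using h) (by simpa using hne)
        exact ⟨a :: s, c, r, r', by rw [h1]; rfl, by rw [h2]; rfl⟩
      · refine ⟨[], a, v, v', rfl, ?_⟩
        have : b = !a := by cases a <;> cases b <;> simp_all
        rw [this]
        rfl

lemma common_suffix (u u' : List Bool) (h : u.length = u'.length) (hne : u ≠ u') :
    ∃ s a r r', u = r ++ a :: s ∧ u' = r' ++ (!a) :: s := by
  obtain ⟨s, a, r, r', h1, h2⟩ := common_prefix u.reverse u'.reverse (by simpa using h)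
    (by simpa using hne)
  refine ⟨s.reverse, a, r.reverse, r'.reverse, ?_, ?_⟩
  · have := congrArg List.reverse h1
    simpa using this
  · have := congrArg List.reverse h2
    simpa using this

/-- no `p` such that `a p a` and `b p b` with `a ≠ b` are both factors of the prefix of
length `n` -/
def Bal (x : ℕ → Bool) (n : ℕ) : Prop := ∀ i j m, i + m + 2 ≤ n → j + m + 2 ≤ n →
  fac x (i + 1) m = fac x (j + 1) m → x (i + m + 1) = x i → x (j + m + 1) = x j → x i = x j

lemma fac_eq_split {x : ℕ → Bool} {i m : ℕ} {r s : List Bool} {a : Bool}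
    (h : fac x i m = r ++ a :: s) : x (i + r.length) = a ∧
      fac x (i + r.length + 1) s.length = s ∧ m = r.length + 1 + s.length := by
  have hl := congrArg List.length h
  rw [length_fac] at hl
  simp only [List.length_append, List.length_cons] at hl
  have hm : m = r.length + (s.length + 1) := by omega
  rw [hm, fac_add, fac_cons] at h
  have h2 := List.append_inj h (by simp [length_fac])
  have h3 := List.cons_eq_cons.1 h2.2
  exact ⟨h3.1, h3.2, by omega⟩

/-- the factors of length `m` -/
def FT (x : ℕ → Bool) (n m : ℕ) : Finset (List Bool) := (range (n + 1 - m)).image (fun i => fac x i m)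

lemma mem_FT {x : ℕ → Bool} {n m : ℕ} {u : List Bool} :
    u ∈ FT x n m ↔ ∃ i, i + m ≤ n ∧ fac x i m = u := by
  unfold FT
  rw [Finset.mem_image]
  constructor
  · rintro ⟨i, hi, rfl⟩
    rw [Finset.mem_range] at hi
    exact ⟨i, by omega, rfl⟩
  · rintro ⟨i, hi, rfl⟩
    exact ⟨i, by rw [Finset.mem_range]; omega, rfl⟩

lemma special_unique {x : ℕ → Bool} {n m : ℕ} (hB : Bal x n) {u u' : List Bool}
    (hu : ∀ a, u ++ [a] ∈ FT x n (m + 1)) (hu' : ∀ a, u' ++ [a] ∈ FT x n (m + 1)) : u = u' := by
  by_contra hne
  have hl : u.length = m := by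
    obtain ⟨i, _, h⟩ := mem_FT.1 (hu true)
    have := congrArg List.length h
    rw [length_fac] at this
    simp at this
    omega
  have hl' : u'.length = m := by
    obtain ⟨i, _, h⟩ := mem_FT.1 (hu' true)
    have := congrArg List.length h
    rw [length_fac] at this
    simp at this
    omega
  obtain ⟨s, a, r, r', h1, h2⟩ := common_suffix u u' (by omega) hne
  obtain ⟨i, hi, hfi⟩ := mem_FT.1 (hu a)
  obtain ⟨j, hj, hfj⟩ := mem_FT.1 (hu' (!a))
  rw [h1, List.append_assoc, List.cons_append] at hfi
  rw [h2, List.append_assoc, List.cons_append] at hfj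
  obtain ⟨p1, p2, p3⟩ := fac_eq_split hfi
  obtain ⟨q1, q2, q3⟩ := fac_eq_split hfj
  rw [List.length_append, List.length_singleton] at p2 p3 q2 q3
  rw [fac_succ] at p2 q2
  have p4 := List.append_inj p2 (by simp [length_fac])
  have q4 := List.append_inj q2 (by simp [length_fac])
  have p5 : x (i + r.length + 1 + s.length) = a := by simpa using p4.2
  have q5 : x (j + r'.length + 1 + s.length) = !a := by simpa using q4.2
  have := hB (i + r.length) (j + r'.length) s.length (by omega) (by omega)
    (by rw [p4.1, q4.1])
    (by rw [p1, ← p5]; congr 1; omega) (by rw [q1, ← q5]; congr 1; omega)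
  rw [p1, q1] at this
  cases a <;> simp at this

lemma card_FT {x : ℕ → Bool} {n : ℕ} (hB : Bal x n) : ∀ m, m ≤ n → (FT x n m).card ≤ m + 1 := by
  intro m
  induction m with
  | zero =>
    intro _
    have : FT x n 0 ⊆ {[]} := by
      intro u hu
      obtain ⟨i, _, h⟩ := mem_FT.1 hu
      rw [fac_zero] at h
      simp [← h]
    simpa using Finset.card_le_card this
  | succ m ih =>
    intro hm
    have ih := ih (by omega)
    classical
    set A : Bool → Finset (List Bool) := fun b => (FT x n m).filter (fun u => u ++ [b] ∈ FT x n (m + 1))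
      with hA
    have hsub : FT x n (m + 1) ⊆ (A false).image (fun u => u ++ [false]) ∪
        (A true).image (fun u => u ++ [true]) := by
      intro u hu
      obtain ⟨i, hi, h⟩ := mem_FT.1 hu
      rw [fac_succ] at h
      have h1 : fac x i m ∈ A (x (i + m)) := by
        rw [hA, Finset.mem_filter]
        refine ⟨mem_FT.2 ⟨i, by omega, rfl⟩, ?_⟩
        rw [h]
        exact hu
      rw [Finset.mem_union, Finset.mem_image, Finset.mem_image]
      cases hb : x (i + m) with
      | false => left; exact ⟨_, by rw [hb] at h1; exact h1, by rw [← h, hb]⟩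
      | true => right; exact ⟨_, by rw [hb] at h1; exact h1, by rw [← h, hb]⟩
    have h1 := Finset.card_le_card hsub
    have h2 := h1.trans (Finset.card_union_le _ _)
    have h3 : ((A false).image (fun u => u ++ [false])).card ≤ (A false).card :=
      Finset.card_image_le
    have h4 : ((A true).image (fun u => u ++ [true])).card ≤ (A true).card :=
      Finset.card_image_le
    have h5 := Finset.card_union_add_card_inter (A false) (A true)
    have h6 : (A false ∪ A true).card ≤ (FT x n m).card := by
      apply Finset.card_le_card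
      apply Finset.union_subset
      · exact Finset.filter_subset _ _
      · exact Finset.filter_subset _ _
    have h7 : (A false ∩ A true).card ≤ 1 := by
      rw [Finset.card_le_one]
      intro u hu u' hu'
      rw [Finset.mem_inter] at hu hu'
      apply special_unique hB (m := m)
      · intro a
        cases a
        · exact (Finset.mem_filter.1 hu.1).2
        · exact (Finset.mem_filter.1 hu.2).2
      · intro a
        cases a
        · exact (Finset.mem_filter.1 hu'.1).2
        · exact (Finset.mem_filter.1 hu'.2).2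
    omega

/-- a repeated factor of length `L` among the first `L + 2` positions -/
lemma repeat_of_bal {x : ℕ → Bool} {L : ℕ} (hB : Bal x (2 * L + 1)) :
    ∃ i j, i < j ∧ j ≤ L + 1 ∧ fac x i L = fac x j L := by
  have h := card_FT hB L (by omega)
  obtain ⟨i, hi, j, hj, hne, he⟩ := Finset.exists_ne_map_eq_of_card_lt_of_maps_to
    (s := range (L + 2)) (t := FT x (2 * L + 1) L) (f := fun i => fac x i L)
    (by rw [Finset.card_range]; omega)
    (by
      intro i hi
      rw [Finset.mem_coe, Finset.mem_range] at hi
      rw [Finset.mem_coe]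
      exact mem_FT.2 ⟨i, by omega, rfl⟩)
  rw [Finset.mem_range] at hi hj
  rcases lt_or_gt_of_ne hne with h1 | h1
  · exact ⟨i, j, h1, by omega, he⟩
  · exact ⟨j, i, h1, by omega, he.symm⟩

/-- words from an extremal trajectory have the property -/
lemma bal_of_traj {γ S t C : ℝ} (H : Wk γ S t C) {x : ℕ → Bool} {n : ℕ} {z : Fin 2 → ℝ} {ε : ℝ}
    (hz : ∀ i, 0 ≤ z i) (hz1 : Nn γ S t z ≤ 1) (hε0 : 0 ≤ ε)
    (hε : ε ≤ 1 / (4 * (2 * 3 ^ n) ^ 2) / 4)
    (hx : 1 - ε < Nn γ S t (hat γ S t (fac x 0 n) z)) : Bal x n := by
  obtain ⟨u, hu⟩ := exists_lt_of_lt_ciSup hx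
  rw [← hat_append] at hu
  -- an infinite word
  set W := fac x 0 n ++ u with hW
  obtain ⟨x', hx'⟩ := exists_fac W
  have hWl : W.length = n + u.length := by rw [hW, List.length_append, length_fac]
  have hagree : fac x' 0 n = fac x 0 n := by
    rw [hWl, fac_add, hW] at hx'
    exact (List.append_inj hx' (by simp [length_fac])).1
  have hag : ∀ s < n, x' s = x s := by
    intro s hs
    have := congrArg (fun l => l[s]?) hagree
    simpa [fac, hs] using this
  have hagf : ∀ s l, s + l ≤ n → fac x' s l = fac x s l := by
    intro s l hsl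
    apply fac_congr
    intro k hk
    exact hag _ (by omega)
  have key : ∀ i j m, i < j → j + m + 2 ≤ n → fac x (i + 1) m = fac x (j + 1) m →
      x (i + m + 1) = x i → x (j + m + 1) = x j → x i = x j := by
    intro i j m hij hj h1 h2 h3
    by_contra hne
    have h := exch H (x := x') (N := W.length) (n := n) (i := i) (j := j) (m := m) hz hz1 hij hj
      (by omega) (by rw [hagf _ _ (by omega), hagf _ _ (by omega)]; exact h1)
      (by rw [hag _ (by omega), hag _ (by omega)]; exact h2)
      (by rw [hag _ (by omega), hag _ (by omega)]; exact h3)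
      (by rw [hag _ (by omega), hag _ (by omega)]; exact hne)
    rw [hx'] at h
    set v := l1 (hat γ S t W z) with hv
    set δ : ℝ := 1 / (4 * (2 * 3 ^ n) ^ 2) with hδ
    have hδ0 : 0 < δ := by positivity
    have hδ1 : δ ≤ 1 / 16 := by
      rw [hδ]
      apply one_div_le_one_div_of_le (by norm_num)
      have : (1 : ℝ) ≤ 3 ^ n := one_le_pow₀ (by norm_num)
      nlinarith
    have hv1 : 0 < 1 - ε := by linarith
    have h5 : (1 - ε) ^ 2 < v ^ 2 := by
      apply pow_lt_pow_left₀ hu hv1.le (by norm_num)
    have h6 : 1 - δ / 2 ≤ (1 - ε) ^ 2 := by nlinarith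
    nlinarith
  intro i j m hi hj h1 h2 h3
  rcases lt_trichotomy i j with h | h | h
  · exact key i j m h hj h1 h2 h3
  · rw [h]
  · exact (key j i m h hi h1.symm h3 h2).symm

end Pool.Agent.Q229.JE
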