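import Pool.Agent.Q229.JE.Weak

/-!
# The exchange lemma: extremal words do not contain both `0p0` and `1p1`
-/

set_option autoImplicit false

namespace Pool.Agent.Q229.JE

open Matrix Finset Filter Topology Pool.Agent.Q120.JS

/-- column sums of the product -/
def RR (w : List Bool) (j : Fin 2) : ℝ := M w 0 j + M w 1 j

/-- the pairing -/
def dt (r v : Fin 2 → ℝ) : ℝ := r 0 * v 0 + r 1 * v 1

lemma RR_nonneg (w : List Bool) (j : Fin 2) : 0 ≤ RR w j :=
  add_nonneg (M_nonneg _ _ _) (M_nonneg _ _ _)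

lemma dt_RR_append (u v : List Bool) (z : Fin 2 → ℝ) :
    dt (RR (u ++ v)) z = dt (RR v) (M u *ᵥ z) := by
  unfold dt RR
  rw [M_append]
  simp only [Matrix.mul_apply, Matrix.mulVec, dotProduct, Fin.sum_univ_two]
  ring

lemma l1_hat_eq {γ S t : ℝ} (w : List Bool) {z : Fin 2 → ℝ} (hz : ∀ i, 0 ≤ z i) :
    l1 (hat γ S t w z) = cc γ S t w * dt (RR w) z := by
  have h := hat_nonneg (γ := γ) (S := S) (t := t) w hz
  unfold l1
  rw [abs_of_nonneg (h 0), abs_of_nonneg (h 1)]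
  unfold hat dt RR
  simp only [Pi.smul_apply, smul_eq_mul, Matrix.mulVec, dotProduct, Fin.sum_univ_two]
  ring

lemma mulVec_nonneg (w : List Bool) {v : Fin 2 → ℝ} (hv : ∀ i, 0 ≤ v i) (i : Fin 2) :
    0 ≤ (M w *ᵥ v) i := by
  simp only [Matrix.mulVec, dotProduct, Fin.sum_univ_two]
  exact add_nonneg (mul_nonneg (M_nonneg _ _ _) (hv _)) (mul_nonneg (M_nonneg _ _ _) (hv _))

/-- products do not decrease coordinates -/
lemma le_mulVec (w : List Bool) {v : Fin 2 → ℝ} (hv : ∀ i, 0 ≤ v i) (i : Fin 2) :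
    v i ≤ (M w *ᵥ v) i := by
  induction w generalizing v with
  | nil => simp [M]
  | cons x w ih =>
    have e : M (x :: w) *ᵥ v = M w *ᵥ (A0 x *ᵥ v) := by
      rw [M, ← Matrix.mulVec_mulVec]
    have h0 := hv 0
    have h1 := hv 1
    have hA : ∀ i, v i ≤ (A0 x *ᵥ v) i := by
      intro i
      cases x <;> fin_cases i <;> simp [A0, Matrix.mulVec, dotProduct, Fin.sum_univ_two] <;>
        linarith
    rw [e]
    exact (hA i).trans (ih (fun i => (hv i).trans (hA i)))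

lemma RR_append_ge (u v : List Bool) (j : Fin 2) : RR v j ≤ RR (u ++ v) j := by
  induction u with
  | nil => simp
  | cons x u ih =>
    refine ih.trans ?_
    have e : M (x :: u ++ v) = M (u ++ v) * A0 x := rfl
    unfold RR
    rw [e]
    have a := M_nonneg (u ++ v) 0 0
    have b := M_nonneg (u ++ v) 0 1
    have c := M_nonneg (u ++ v) 1 0
    have d := M_nonneg (u ++ v) 1 1
    cases x <;> fin_cases j <;> simp [A0, Matrix.mul_apply, Fin.sum_univ_two] <;> linarith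

/-- the cross product is preserved -/
def cr (a b : Fin 2 → ℝ) : ℝ := a 0 * b 1 - a 1 * b 0

lemma cr_M (w : List Bool) (a b : Fin 2 → ℝ) : cr (M w *ᵥ a) (M w *ᵥ b) = cr a b := by
  unfold cr
  simp only [Matrix.mulVec, dotProduct, Fin.sum_univ_two]
  have h := M_det' w
  linear_combination (a 0 * b 1 - a 1 * b 0) * h

lemma binet (Y Y' X X' : Fin 2 → ℝ) :
    dt Y' X * dt Y X' - dt Y X * dt Y' X' = cr Y' Y * cr X X' := by
  unfold dt cr
  ring

/-- the sign computation -/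
lemma sign_comp {a b : Bool} (hab : a ≠ b) {x x' : Fin 2 → ℝ} {y y' : Fin 2 → ℝ}
    (hx : ∀ i, 0 ≤ x i) (hxx : ∀ i, x i ≤ x' i) (hy : ∀ i, 0 ≤ y' i) (hyy : ∀ i, y' i ≤ y i)
    (Y Y' : Fin 2 → ℝ) (hY : ∀ j, Y j = y 0 * A0 a 0 j + y 1 * A0 a 1 j)
    (hY' : ∀ j, Y' j = y' 0 * A0 b 0 j + y' 1 * A0 b 1 j) :
    (x 0 + x 1) ^ 2 * (y' 0 + y' 1) ^ 2 / 4 ≤ cr Y' Y * cr (A0 a *ᵥ x) (A0 b *ᵥ x') := by
  have x0 := hx 0
  have x1 := hx 1
  have y0 := hy 0
  have y1 := hy 1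
  have xx0 := hxx 0
  have xx1 := hxx 1
  have yy0 := hyy 0
  have yy1 := hyy 1
  have h00 := hY 0
  have h01 := hY 1
  have h10 := hY' 0
  have h11 := hY' 1
  have A : (x 0 + x 1) ^ 2 / 2 ≤ x 0 * x' 0 + x 0 * x' 1 + x 1 * x' 1 := by nlinarith
  have A' : (x 0 + x 1) ^ 2 / 2 ≤ x 0 * x' 0 + x 1 * x' 0 + x 1 * x' 1 := by nlinarith
  have B : (y' 0 + y' 1) ^ 2 / 2 ≤ y' 0 * y 0 + y' 0 * y 1 + y' 1 * y 1 := by nlinarith
  have B' : (y' 0 + y' 1) ^ 2 / 2 ≤ y' 0 * y 0 + y' 1 * y 0 + y' 1 * y 1 := by nlinarith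
  have pA : 0 ≤ (x 0 + x 1) ^ 2 / 2 := by positivity
  have pB : 0 ≤ (y' 0 + y' 1) ^ 2 / 2 := by positivity
  cases a <;> cases b
  · exact absurd rfl hab
  · simp [A0] at h00 h01 h10 h11
    have e1 : cr Y' Y = y' 0 * y 0 + y' 0 * y 1 + y' 1 * y 1 := by
      unfold cr
      rw [h00, h01, h10, h11]
      ring
    have e2 : cr (A0 false *ᵥ x) (A0 true *ᵥ x') = x 0 * x' 0 + x 0 * x' 1 + x 1 * x' 1 := by
      unfold cr
      simp [A0, Matrix.mulVec, dotProduct, Fin.sum_univ_two]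
      ring
    rw [e1, e2]
    have := mul_le_mul B A pA (pB.trans B)
    linarith
  · simp [A0] at h00 h01 h10 h11
    have e1 : cr Y' Y = -(y' 0 * y 0 + y' 1 * y 0 + y' 1 * y 1) := by
      unfold cr
      rw [h00, h01, h10, h11]
      ring
    have e2 : cr (A0 true *ᵥ x) (A0 false *ᵥ x') =
        -(x 0 * x' 0 + x 1 * x' 0 + x 1 * x' 1) := by
      unfold cr
      simp [A0, Matrix.mulVec, dotProduct, Fin.sum_univ_two]
      ring
    rw [e1, e2]
    have := mul_le_mul B' A' pA (pB.trans B')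
    linarith
  · exact absurd rfl hab

lemma fac_split (x : ℕ → Bool) {N c : ℕ} (s : ℕ) (h : s + c ≤ s + N) :
    fac x s N = fac x s c ++ fac x (s + c) (N - c) := by
  rw [← fac_add]
  congr 1
  omega

lemma fac_cons (x : ℕ → Bool) (s n : ℕ) : fac x s (n + 1) = x s :: fac x (s + 1) n := by
  rw [Nat.add_comm n 1, fac_add]
  simp [fac]

/-- the exchange lemma, unnormalised -/
lemma exch_raw {x : ℕ → Bool} {N n i j m : ℕ} {z : Fin 2 → ℝ} (hz : ∀ i, 0 ≤ z i) (hij : i < j)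
    (hjn : j + m + 2 ≤ n) (hnN : n ≤ N) (hp : fac x (i + 1) m = fac x (j + 1) m)
    (ha : x (i + m + 1) = x i) (hb : x (j + m + 1) = x j) (hab : x i ≠ x j) :
    (1 + 1 / (4 * (2 * 3 ^ n) ^ 2)) * dt (RR (fac x 0 N)) z ^ 2 ≤
      dt (RR (fac x 0 (i + m + 1) ++ fac x (j + m + 1) (N - (j + m + 1)))) z *
      dt (RR (fac x 0 (j + m + 1) ++ fac x (i + m + 1) (N - (i + m + 1)))) z := by
  set c := i + m + 1 with hc
  set c' := j + m + 1 with hc'
  set X := M (fac x 0 c) *ᵥ z with hX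
  set X' := M (fac x 0 c') *ᵥ z with hX'
  set Y := RR (fac x c (N - c)) with hY
  set Y' := RR (fac x c' (N - c')) with hY'
  set y := RR (fac x (c + 1) (N - c - 1)) with hy
  set y' := RR (fac x (c' + 1) (N - c' - 1)) with hy'
  set u := M (fac x 0 i) *ᵥ z with hu
  set u' := M (fac x 0 j) *ᵥ z with hu'
  have W1 : dt (RR (fac x 0 c ++ fac x c' (N - c'))) z = dt Y' X := dt_RR_append _ _ _
  have W2 : dt (RR (fac x 0 c' ++ fac x c (N - c))) z = dt Y X' := dt_RR_append _ _ _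
  have W0 : dt (RR (fac x 0 N)) z = dt Y X := by
    rw [fac_split x (c := c) 0 (by omega), dt_RR_append, Nat.zero_add]
  have W0' : dt (RR (fac x 0 N)) z = dt Y' X' := by
    rw [fac_split x (c := c') 0 (by omega), dt_RR_append, Nat.zero_add]
  have un : ∀ k, 0 ≤ u k := fun k => mulVec_nonneg _ hz k
  have yn' : ∀ k, 0 ≤ y' k := fun k => RR_nonneg _ k
  have huu : ∀ k, u k ≤ u' k := by
    intro k
    have e : u' = M (fac x i (j - i)) *ᵥ u := by
      rw [hu', hu, Matrix.mulVec_mulVec, ← M_append]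
      congr 2
      rw [fac_split x (c := i) 0 (by omega), Nat.zero_add]
    rw [e]
    exact le_mulVec _ un k
  have hyy : ∀ k, y' k ≤ y k := by
    intro k
    have e : fac x (c + 1) (N - c - 1) = fac x (c + 1) (c' - c) ++ fac x (c' + 1) (N - c' - 1) := by
      rw [fac_split x (c := c' - c) (c + 1) (by omega)]
      congr 2 <;> omega
    rw [hy, e]
    exact RR_append_ge _ _ k
  have hRc : ∀ (s l : ℕ) (k : Fin 2), RR (fac x s (l + 1)) k =
      RR (fac x (s + 1) l) 0 * A0 (x s) 0 k + RR (fac x (s + 1) l) 1 * A0 (x s) 1 k := by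
    intro s l k
    rw [fac_cons]
    unfold RR
    rw [M]
    simp only [Matrix.mul_apply, Fin.sum_univ_two]
    ring
  have eY : ∀ k, Y k = y 0 * A0 (x i) 0 k + y 1 * A0 (x i) 1 k := by
    intro k
    have h := hRc c (N - c - 1) k
    rw [show N - c - 1 + 1 = N - c by omega, ha] at h
    exact h
  have eY' : ∀ k, Y' k = y' 0 * A0 (x j) 0 k + y' 1 * A0 (x j) 1 k := by
    intro k
    have h := hRc c' (N - c' - 1) k
    rw [show N - c' - 1 + 1 = N - c' by omega, hb] at h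
    exact h
  have hsign := sign_comp hab un huu yn' hyy Y Y' eY eY'
  have eX : X = M (fac x (i + 1) m) *ᵥ (A0 (x i) *ᵥ u) := by
    rw [hX, hu, Matrix.mulVec_mulVec, Matrix.mulVec_mulVec, hc,
      show i + m + 1 = i + (1 + m) by ring, fac_add, fac_add]
    congr 1
    have : fac x (0 + i) 1 = [x i] := by simp [fac]
    rw [this, M_append, M_append, M_single, Nat.zero_add]
  have eX' : X' = M (fac x (i + 1) m) *ᵥ (A0 (x j) *ᵥ u') := by
    rw [hX', hu', Matrix.mulVec_mulVec, Matrix.mulVec_mulVec, hc',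
      show j + m + 1 = j + (1 + m) by ring, fac_add, fac_add]
    congr 1
    have : fac x (0 + j) 1 = [x j] := by simp [fac]
    rw [this, M_append, M_append, M_single, Nat.zero_add, hp]
  have hcr : cr X X' = cr (A0 (x i) *ᵥ u) (A0 (x j) *ᵥ u') := by
    rw [eX, eX', cr_M]
  have hbin := binet Y Y' X X'
  rw [← hcr] at hsign
  rw [← hbin] at hsign
  -- the upper bound
  have hup : dt Y X ≤ 2 * 3 ^ n * ((y' 0 + y' 1) * (u 0 + u 1)) := by
    have e : fac x 0 N = fac x 0 i ++ (fac x i (c' + 1 - i) ++ fac x (c' + 1) (N - c' - 1)) := by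
      rw [fac_split x (c := i) 0 (by omega), Nat.zero_add,
        fac_split x (N := N - i) (c := c' + 1 - i) i (by omega)]
      congr 3 <;> omega
    rw [← W0, e, dt_RR_append, dt_RR_append]
    set v := fac x i (c' + 1 - i) with hv
    have h1 := l1_mulVec v u
    have vn : ∀ k, 0 ≤ (M v *ᵥ u) k := fun k => mulVec_nonneg _ un k
    rw [l1_of_nonneg vn, l1_of_nonneg un] at h1
    have h2 := sg_le v
    have h3 : (2 : ℝ) * 3 ^ v.length ≤ 2 * 3 ^ n := by
      rw [hv, length_fac]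
      have := pow_le_pow_right₀ (by norm_num : (1 : ℝ) ≤ 3) (show c' + 1 - i ≤ n by omega)
      linarith
    have hus : 0 ≤ u 0 + u 1 := add_nonneg (un 0) (un 1)
    have h4 : (M v *ᵥ u) 0 + (M v *ᵥ u) 1 ≤ 2 * 3 ^ n * (u 0 + u 1) :=
      h1.trans (mul_le_mul_of_nonneg_right (h2.trans h3) hus)
    have h5 : dt y' (M v *ᵥ u) ≤ (y' 0 + y' 1) * ((M v *ᵥ u) 0 + (M v *ᵥ u) 1) := by
      unfold dt
      have a := mul_nonneg (yn' 0) (vn 1)
      have b := mul_nonneg (yn' 1) (vn 0)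
      nlinarith
    calc dt y' (M v *ᵥ u) ≤ (y' 0 + y' 1) * ((M v *ᵥ u) 0 + (M v *ᵥ u) 1) := h5
      _ ≤ (y' 0 + y' 1) * (2 * 3 ^ n * (u 0 + u 1)) :=
          mul_le_mul_of_nonneg_left h4 (add_nonneg (yn' 0) (yn' 1))
      _ = _ := by ring
  have hYX0 : 0 ≤ dt Y X := by
    unfold dt
    have Yn : ∀ k, 0 ≤ Y k := fun k => RR_nonneg _ k
    have Xn : ∀ k, 0 ≤ X k := fun k => mulVec_nonneg _ hz k
    exact add_nonneg (mul_nonneg (Yn 0) (Xn 0)) (mul_nonneg (Yn 1) (Xn 1))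
  rw [W1, W2, W0]
  have hYX' : dt Y' X' = dt Y X := by rw [← W0', W0]
  rw [hYX'] at hsign
  set K : ℝ := 2 * 3 ^ n with hK
  have hK0 : 0 < K := by positivity
  have hsq : dt Y X ^ 2 ≤ K ^ 2 * ((y' 0 + y' 1) * (u 0 + u 1)) ^ 2 := by
    rw [← mul_pow]
    exact pow_le_pow_left₀ hYX0 hup 2
  have h6 : 1 / (4 * K ^ 2) * dt Y X ^ 2 ≤ (u 0 + u 1) ^ 2 * (y' 0 + y' 1) ^ 2 / 4 := by
    rw [div_mul_eq_mul_div, one_mul, div_le_iff₀ (by positivity)]
    nlinarith
  nlinarith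

/-- the exchange lemma -/
lemma exch {γ S t C : ℝ} (H : Wk γ S t C) {x : ℕ → Bool} {N n i j m : ℕ} {z : Fin 2 → ℝ}
    (hz : ∀ i, 0 ≤ z i) (hz1 : Nn γ S t z ≤ 1) (hij : i < j)
    (hjn : j + m + 2 ≤ n) (hnN : n ≤ N) (hp : fac x (i + 1) m = fac x (j + 1) m)
    (ha : x (i + m + 1) = x i) (hb : x (j + m + 1) = x j) (hab : x i ≠ x j) :
    (1 + 1 / (4 * (2 * 3 ^ n) ^ 2)) * l1 (hat γ S t (fac x 0 N) z) ^ 2 ≤ 1 := by
  have h := exch_raw hz hij hjn hnN hp ha hb hab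
  set w1 := fac x 0 (i + m + 1) ++ fac x (j + m + 1) (N - (j + m + 1)) with hw1
  set w2 := fac x 0 (j + m + 1) ++ fac x (i + m + 1) (N - (i + m + 1)) with hw2
  have hcc : cc γ S t w1 * cc γ S t w2 = cc γ S t (fac x 0 N) ^ 2 := by
    have e1 : cc γ S t (fac x 0 N) = cc γ S t (fac x 0 (i + m + 1)) *
        cc γ S t (fac x (i + m + 1) (N - (i + m + 1))) := by
      rw [fac_split x (c := i + m + 1) 0 (by omega), cc_append, Nat.zero_add]
    have e2 : cc γ S t (fac x 0 N) = cc γ S t (fac x 0 (j + m + 1)) *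
        cc γ S t (fac x (j + m + 1) (N - (j + m + 1))) := by
      rw [fac_split x (c := j + m + 1) 0 (by omega), cc_append, Nat.zero_add]
    rw [sq]
    nth_rewrite 1 [e1]
    rw [e2, hw1, hw2, cc_append, cc_append]
    ring
  have l : ∀ w, cc γ S t w * dt (RR w) z ≤ 1 := by
    intro w
    rw [← l1_hat_eq w hz]
    exact (le_ciSup (WNn_bdd H z) w).trans hz1
  have l0 : ∀ w, 0 ≤ cc γ S t w * dt (RR w) z := by
    intro w
    rw [← l1_hat_eq w hz]
    exact l1_nonneg _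
  rw [l1_hat_eq _ hz, mul_pow (cc γ S t (fac x 0 N)), ← hcc]
  calc (1 + 1 / (4 * (2 * 3 ^ n) ^ 2)) * (cc γ S t w1 * cc γ S t w2 * dt (RR (fac x 0 N)) z ^ 2)
      = (cc γ S t w1 * cc γ S t w2) *
        ((1 + 1 / (4 * (2 * 3 ^ n) ^ 2)) * dt (RR (fac x 0 N)) z ^ 2) := by ring
    _ ≤ (cc γ S t w1 * cc γ S t w2) * (dt (RR w1) z * dt (RR w2) z) :=
        mul_le_mul_of_nonneg_left h (mul_pos (cc_pos _) (cc_pos _)).le
    _ = (cc γ S t w1 * dt (RR w1) z) * (cc γ S t w2 * dt (RR w2) z) := by ring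
    _ ≤ 1 * 1 := mul_le_mul (l w1) (l w2) (l0 w2) zero_le_one
    _ = 1 := one_mul 1

end Pool.Agent.Q229.JE
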