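import Pool.Agent.Q229.JE.Appr
import Pool.Agent.Q229.JE.Cover

/-!
# The set of parameters with an irrational subgradient has dimension zero
-/

set_option autoImplicit false

namespace Pool.Agent.Q229.JE

open Filter Topology Set Pool.Agent.Q120.JS
open scoped ENNReal NNReal

/-- `r` is a subgradient of `G` at `t` -/
def Sub (t r : ℝ) : Prop := ∀ t', G t + r * (t' - t) ≤ G t'

/-- the covering sets -/
def BB (T K s0 : ℝ) (M : ℕ) (i : Fin (M + 1) × Fin (M + 1) × Bool) : Set ℝ :=
  {t | t ∈ Icc (-T) 0 ∧ ∃ Q : List Bool, Q.length = i.2.1.1 ∧ Q.count true = i.1.1 ∧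
    1 ≤ Q.length ∧
    Q.length * G t - Q.count true * t - Real.log (lam Q) ≤ K * Real.exp (-((M - 1 : ℕ) * s0)) ∧
    ∃ r, Sub t r ∧ (if i.2.2 then (Q.count true : ℝ) / Q.length + 1 / (4 * (M : ℝ) ^ 2) ≤ r
      else r ≤ (Q.count true : ℝ) / Q.length - 1 / (4 * (M : ℝ) ^ 2))}

lemma BB_lt {T K s0 : ℝ} {M : ℕ} (hM : 1 ≤ M) {i : Fin (M + 1) × Fin (M + 1) × Bool} {t1 t2 : ℝ}
    (h1 : t1 ∈ BB T K s0 M i) (h2 : t2 ∈ BB T K s0 M i) (hlt : t1 < t2) :
    t2 - t1 ≤ 4 * (M : ℝ) ^ 2 * (K * Real.exp (-((M - 1 : ℕ) * s0))) := by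
  obtain ⟨_, Q1, hl1, hc1, hp1, he1, r1, hr1, hs1⟩ := h1
  obtain ⟨_, Q2, hl2, hc2, hp2, he2, r2, hr2, hs2⟩ := h2
  set η := K * Real.exp (-((M - 1 : ℕ) * s0)) with hη
  have hMr : (1 : ℝ) ≤ M := by exact_mod_cast hM
  have hκ : 0 < 1 / (4 * (M : ℝ) ^ 2) := by positivity
  set κ := 1 / (4 * (M : ℝ) ^ 2) with hκd
  have hfin : κ * (t2 - t1) ≤ η := by
    by_cases hσ : i.2.2 = true
    · rw [if_pos hσ] at hs1
      have hq : (1 : ℝ) ≤ Q2.length := by exact_mod_cast hp2
      have w := word_le t1 Q2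
      have g := hr1 t2
      have e1 : (Q1.count true : ℝ) / Q1.length = (Q2.count true : ℝ) / Q2.length := by
        rw [hc1, hl1, hc2, hl2]
      rw [e1] at hs1
      have hk : (Q2.count true : ℝ) = (Q2.count true : ℝ) / Q2.length * Q2.length := by
        field_simp
      have h3 : (Q2.count true : ℝ) + κ * Q2.length ≤ r1 * Q2.length := by
        calc (Q2.count true : ℝ) + κ * Q2.length
            = ((Q2.count true : ℝ) / Q2.length + κ) * Q2.length := by
              rw [add_mul, ← hk]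
          _ ≤ r1 * Q2.length := mul_le_mul_of_nonneg_right hs1 (by linarith)
      have h4 : (Q2.length : ℝ) * (G t1 + r1 * (t2 - t1)) ≤ Q2.length * G t2 :=
        mul_le_mul_of_nonneg_left g (by linarith)
      have h5 : ((Q2.count true : ℝ) + κ * Q2.length) * (t2 - t1) ≤
          r1 * Q2.length * (t2 - t1) := mul_le_mul_of_nonneg_right h3 (by linarith)
      have h6 : κ * (t2 - t1) ≤ κ * Q2.length * (t2 - t1) := by
        have := mul_pos hκ (sub_pos.2 hlt)
        nlinarith
      nlinarith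
    · rw [if_neg hσ] at hs2
      have hq : (1 : ℝ) ≤ Q1.length := by exact_mod_cast hp1
      have w := word_le t2 Q1
      have g := hr2 t1
      have e1 : (Q2.count true : ℝ) / Q2.length = (Q1.count true : ℝ) / Q1.length := by
        rw [hc1, hl1, hc2, hl2]
      rw [e1] at hs2
      have hk : (Q1.count true : ℝ) = (Q1.count true : ℝ) / Q1.length * Q1.length := by
        field_simp
      have h3 : r2 * Q1.length ≤ (Q1.count true : ℝ) - κ * Q1.length := by
        calc r2 * Q1.length ≤ ((Q1.count true : ℝ) / Q1.length - κ) * Q1.length :=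
              mul_le_mul_of_nonneg_right hs2 (by linarith)
          _ = (Q1.count true : ℝ) - κ * Q1.length := by
              rw [sub_mul, ← hk]
      have h4 : (Q1.length : ℝ) * (G t2 + r2 * (t1 - t2)) ≤ Q1.length * G t1 :=
        mul_le_mul_of_nonneg_left g (by linarith)
      have h5 : r2 * Q1.length * (t2 - t1) ≤
          ((Q1.count true : ℝ) - κ * Q1.length) * (t2 - t1) :=
        mul_le_mul_of_nonneg_right h3 (by linarith)
      have h6 : κ * (t2 - t1) ≤ κ * Q1.length * (t2 - t1) := by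
        have := mul_pos hκ (sub_pos.2 hlt)
        nlinarith
      nlinarith
  have h7 : t2 - t1 = 4 * (M : ℝ) ^ 2 * (κ * (t2 - t1)) := by
    rw [hκd]
    field_simp
  rw [h7]
  exact mul_le_mul_of_nonneg_left hfin (by positivity)

/-- the set of the parameters `t` with an irrational subgradient in a bounded interval -/
def ET (T : ℝ) : Set ℝ := {t | t ∈ Icc (-T) 0 ∧ ∃ r, Irrational r ∧ Sub t r}

theorem dimH_ET (T : ℝ) : dimH (ET T) = 0 := by
  obtain ⟨s0, K, hs0, hK, L0, happ⟩ := approx_G T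
  -- bounded
  have hsm := Real.summable_pow_mul_exp_neg_nat_mul 2 (half_pos hs0)
  set A := ∑' n : ℕ, (n : ℝ) ^ 2 * Real.exp (-(s0 / 2) * n) with hA
  have hAle : ∀ M : ℕ, (M : ℝ) ^ 2 * Real.exp (-(s0 / 2) * M) ≤ A := fun M =>
    hsm.le_tsum M (fun j _ => by positivity)
  have hA0 : 0 ≤ A := tsum_nonneg fun n => by positivity
  have hlen : ∀ M : ℕ, 1 ≤ M → 4 * (M : ℝ) ^ 2 * (K * Real.exp (-((M - 1 : ℕ) * s0))) ≤
      4 * K * Real.exp s0 * A * Real.exp (-(s0 / 2) * M) := by
    intro M hM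
    have e : Real.exp (-((M - 1 : ℕ) * s0)) =
        Real.exp s0 * (Real.exp (-(s0 / 2) * M) * Real.exp (-(s0 / 2) * M)) := by
      rw [← Real.exp_add, ← Real.exp_add, Nat.cast_sub hM]
      congr 1
      push_cast
      ring
    rw [e]
    calc 4 * (M : ℝ) ^ 2 * (K * (Real.exp s0 * (Real.exp (-(s0 / 2) * M) *
          Real.exp (-(s0 / 2) * M))))
        = 4 * K * Real.exp s0 * ((M : ℝ) ^ 2 * Real.exp (-(s0 / 2) * M)) *
          Real.exp (-(s0 / 2) * M) := by ring
      _ ≤ 4 * K * Real.exp s0 * A * Real.exp (-(s0 / 2) * M) := by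
          apply mul_le_mul_of_nonneg_right _ (Real.exp_pos _).le
          exact mul_le_mul_of_nonneg_left (hAle M) (by positivity)
  refine dimH_zero_of_cover (K := 4 * K * Real.exp s0 * A) (c := s0 / 2) (by positivity)
    (half_pos hs0) (BB T K s0) ?_ ?_
  · intro M i x hx y hy
    have hM : 1 ≤ M := by
      obtain ⟨_, Q, hl, _, hp, _⟩ := hx
      have := i.2.1.2
      omega
    refine le_trans ?_ (hlen M hM)
    rcases lt_trichotomy x y with h | h | h
    · rw [abs_sub_comm, abs_of_pos (by linarith)]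
      exact BB_lt hM hx hy h
    · rw [h, sub_self, abs_zero]
      positivity
    · rw [abs_of_pos (by linarith)]
      exact BB_lt hM hy hx h
  · rintro t ⟨ht, r, hr, hsub⟩ N
    obtain ⟨Q0, hQ0, hbest⟩ := best_denominators hr (max N (L0 + 1))
    obtain ⟨M, rfl⟩ : ∃ M, Q0 = M + 1 := ⟨Q0 - 1, by omega⟩
    have hNM : N ≤ M := by
      have := le_max_left N (L0 + 1)
      omega
    have hLM : L0 + 1 ≤ M := by
      have := le_max_right N (L0 + 1)
      omega
    obtain ⟨Q, hQ1, hQ2, hQ3⟩ := happ t ht (M - 1) (by omega)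
    have hcl : Q.count true ≤ Q.length := List.count_le_length
    have hb := hbest Q.length hQ1 (by omega) (Q.count true : ℤ)
    have hMr : (1 : ℝ) ≤ M := by exact_mod_cast (by omega : 1 ≤ M)
    have hq : (1 : ℝ) ≤ Q.length := by exact_mod_cast hQ1
    have hqM : (Q.length : ℝ) ≤ M := by exact_mod_cast (by omega : Q.length ≤ M)
    have hq0 : (0 : ℝ) < Q.length := by linarith
    have hk : 1 / (4 * (M : ℝ) ^ 2) * Q.length ≤ |Q.length * r - ((Q.count true : ℤ) : ℝ)| := by
      refine le_trans ?_ hb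
      rw [div_mul_eq_mul_div, one_mul, div_le_div_iff₀ (by positivity) (by positivity)]
      push_cast
      nlinarith
    refine ⟨M, hNM, ?_⟩
    rcases le_total (0 : ℝ) (Q.length * r - ((Q.count true : ℤ) : ℝ)) with h0 | h0
    · rw [abs_of_nonneg h0] at hk
      refine ⟨(⟨Q.count true, by omega⟩, ⟨Q.length, by omega⟩, true), ht, Q, rfl, rfl, hQ1, hQ3,
        r, hsub, ?_⟩
      rw [if_pos rfl]
      rw [div_add' _ _ _ hq0.ne', div_le_iff₀ hq0]
      push_cast at hk
      linarith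
    · rw [abs_of_nonpos h0] at hk
      refine ⟨(⟨Q.count true, by omega⟩, ⟨Q.length, by omega⟩, false), ht, Q, rfl, rfl, hQ1, hQ3,
        r, hsub, ?_⟩
      rw [if_neg (by simp)]
      rw [div_sub' hq0.ne', le_div_iff₀ hq0]
      push_cast at hk
      linarith

end Pool.Agent.Q229.JE
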