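import Pool.Agent.Q120.JS.Fin

/-!
# Weak version of the extremal norm, helper file (adapted from Q120.JS.Hat)
-/

set_option autoImplicit false

namespace Pool.Agent.Q229.JE

open Matrix Finset Filter Topology Pool.Agent.Q120.JS

/-- the data: only boundedness is assumed -/
structure Wk (γ S t C : ℝ) : Prop where
  hC : 1 ≤ C
  hlam : ∀ w, cc γ S t w * lam w ≤ 1
  hsg : ∀ w, cc γ S t w * sg w ≤ C
  hx : ∃ x : ℕ → Bool, Tendsto (fun n : ℕ =>
    Real.log (cc γ S t (fac x 0 n) * sg (fac x 0 n)) / n) atTop (𝓝 0)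

section

variable {γ S t C : ℝ}

lemma Wcsg_le (H : Wk γ S t C) (w : List Bool) : cc γ S t w * sg w ≤ C := H.hsg w

lemma Wl1_hat_le' (H : Wk γ S t C) (w : List Bool) (v : Fin 2 → ℝ) :
    l1 (hat γ S t w v) ≤ C * l1 v :=
  (l1_hat_le w v).trans (mul_le_mul_of_nonneg_right (Wcsg_le H w) (l1_nonneg v))

lemma WNn_bdd (H : Wk γ S t C) (v : Fin 2 → ℝ) :
    BddAbove (Set.range fun w : List Bool => l1 (hat γ S t w v)) := by
  refine ⟨C * l1 v, ?_⟩
  rintro _ ⟨w, rfl⟩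
  exact Wl1_hat_le' H w v

lemma Wl1_le_Nn (H : Wk γ S t C) (v : Fin 2 → ℝ) : l1 v ≤ Nn γ S t v := by
  have := le_ciSup (WNn_bdd H v) []
  rwa [hat_nil] at this

lemma WNn_le (H : Wk γ S t C) (v : Fin 2 → ℝ) : Nn γ S t v ≤ C * l1 v :=
  ciSup_le fun w => Wl1_hat_le' H w v

lemma WNn_hat (H : Wk γ S t C) (w : List Bool) (v : Fin 2 → ℝ) :
    Nn γ S t (hat γ S t w v) ≤ Nn γ S t v := by
  refine ciSup_le fun u => ?_
  rw [← hat_append]
  exact le_ciSup (WNn_bdd H v) _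

lemma WNn_add (H : Wk γ S t C) (u v : Fin 2 → ℝ) :
    Nn γ S t (u + v) ≤ Nn γ S t u + Nn γ S t v := by
  refine ciSup_le fun w => ?_
  rw [hat_add]
  exact (l1_add _ _).trans (add_le_add (le_ciSup (WNn_bdd H u) w) (le_ciSup (WNn_bdd H v) w))

lemma WNn_smul_le (H : Wk γ S t C) {k : ℝ} (hk : 0 ≤ k) (v : Fin 2 → ℝ) :
    Nn γ S t (k • v) ≤ k * Nn γ S t v := by
  refine ciSup_le fun w => ?_
  rw [hat_smul, l1_smul, abs_of_nonneg hk]
  exact mul_le_mul_of_nonneg_left (le_ciSup (WNn_bdd H v) w) hk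

lemma WNn_nonneg (H : Wk γ S t C) (v : Fin 2 → ℝ) : 0 ≤ Nn γ S t v :=
  (l1_nonneg v).trans (Wl1_le_Nn H v)

/-- step 2: long words which almost preserve the norm of some vector -/
lemma Wexists_extremal (H : Wk γ S t C) {n : ℕ} (hn : 1 ≤ n) {ε : ℝ} (hε : 0 < ε)
    (hε2 : ε ≤ 1 / 2) : ∃ (x : ℕ → Bool) (z : Fin 2 → ℝ), (∀ i, 0 ≤ z i) ∧ Nn γ S t z ≤ 1 ∧
      1 - ε < Nn γ S t (hat γ S t (fac x 0 n) z) := by
  by_contra hcon
  push Not at hcon
  have hθ0 : 0 < 1 - ε := by linarith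
  have key : ∀ (x : ℕ → Bool) (z : Fin 2 → ℝ), (∀ i, 0 ≤ z i) →
      Nn γ S t (hat γ S t (fac x 0 n) z) ≤ (1 - ε) * Nn γ S t z := by
    intro x z hz
    rcases (WNn_nonneg H z).eq_or_lt with h0 | h0
    · have := WNn_hat H (fac x 0 n) z
      rw [← h0] at this ⊢
      simpa using this
    · have h1 := hcon x ((Nn γ S t z)⁻¹ • z)
        (fun i => by
          simp only [Pi.smul_apply, smul_eq_mul]
          exact mul_nonneg (inv_nonneg.2 h0.le) (hz i))
        ((WNn_smul_le H (inv_nonneg.2 h0.le) z).trans (by rw [inv_mul_cancel₀ h0.ne']))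
      have h2 : z = (Nn γ S t z) • ((Nn γ S t z)⁻¹ • z) := by
        rw [smul_smul, mul_inv_cancel₀ h0.ne', one_smul]
      calc Nn γ S t (hat γ S t (fac x 0 n) z)
          = Nn γ S t (Nn γ S t z • hat γ S t (fac x 0 n) ((Nn γ S t z)⁻¹ • z)) := by
            rw [← hat_smul, ← h2]
        _ ≤ Nn γ S t z * Nn γ S t (hat γ S t (fac x 0 n) ((Nn γ S t z)⁻¹ • z)) :=
            WNn_smul_le H h0.le _
        _ ≤ Nn γ S t z * (1 - ε) := mul_le_mul_of_nonneg_left h1 h0.le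
        _ = _ := mul_comm _ _
  obtain ⟨x, hx⟩ := H.hx
  have hiter : ∀ j : ℕ, Nn γ S t (hat γ S t (fac x 0 (j * n)) (fun _ => 1)) ≤
      (1 - ε) ^ j * (2 * C) := by
    intro j
    induction j with
    | zero =>
      rw [Nat.zero_mul, fac_zero, hat_nil, pow_zero, one_mul]
      have := WNn_le H (fun _ => 1)
      have e : l1 (fun _ => (1 : ℝ)) = 2 := by unfold l1; norm_num
      rw [e] at this
      linarith
    | succ j ih =>
      rw [Nat.succ_mul, fac_add, hat_append, Nat.zero_add, fac_shift x (j * n)]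
      refine (key _ _ (fun i => hat_nonneg _ (fun _ => zero_le_one) i)).trans ?_
      rw [pow_succ]
      nlinarith
  have hlog : ∀ j : ℕ, Real.log (cc γ S t (fac x 0 (j * n)) * sg (fac x 0 (j * n))) ≤
      j * Real.log (1 - ε) + Real.log (2 * C) := by
    intro j
    have h1 := hiter j
    have h2 := (Wl1_le_Nn H _).trans h1
    rw [l1_ones] at h2
    have h3 := Real.log_le_log (mul_pos (cc_pos _) (sg_pos _)) h2
    rw [Real.log_mul (pow_pos hθ0 j).ne' (by have := H.hC; positivity), Real.log_pow] at h3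
    exact h3
  have hn' : (0 : ℝ) < n := by exact_mod_cast (by omega : 0 < n)
  have hsub : Tendsto (fun j : ℕ =>
      Real.log (cc γ S t (fac x 0 (j * n)) * sg (fac x 0 (j * n))) / ((j * n : ℕ) : ℝ)) atTop
      (𝓝 0) := hx.comp (tendsto_id.atTop_mul_const' (by omega))
  have hneg : Real.log (1 - ε) < 0 := Real.log_neg hθ0 (by linarith)
  have hup : Tendsto (fun j : ℕ => Real.log (1 - ε) / n + Real.log (2 * C) / n / j) atTop
      (𝓝 (Real.log (1 - ε) / n)) := by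
    have := (tendsto_const_div_atTop_nhds_zero_nat (Real.log (2 * C) / n)).const_add
      (Real.log (1 - ε) / n)
    simpa using this
  have h0 : (0 : ℝ) ≤ Real.log (1 - ε) / n := by
    refine le_of_tendsto_of_tendsto hsub hup ?_
    filter_upwards [eventually_gt_atTop 0] with j hj
    have hj' : (0 : ℝ) < j := by exact_mod_cast hj
    have := hlog j
    push_cast
    rw [div_le_iff₀ (by positivity)]
    have e : (Real.log (1 - ε) / n + Real.log (2 * C) / n / j) * (j * n) =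
        j * Real.log (1 - ε) + Real.log (2 * C) := by
      field_simp
    rw [e]
    exact this
  have h1 : Real.log (1 - ε) / n < 0 := div_neg_of_neg_of_pos hneg hn'
  linarith

/-- an extremal trajectory of length `n` -/
structure WTraj (γ S t ε : ℝ) (n : ℕ) (x : ℕ → Bool) (z : Fin 2 → ℝ) : Prop where
  nonneg : ∀ i, 0 ≤ z i
  le : Nn γ S t z ≤ 1
  lt : 1 - ε < Nn γ S t (VV γ S t x z n)

variable {ε : ℝ} {n : ℕ} {x : ℕ → Bool} {z : Fin 2 → ℝ}

lemma WTraj.vnonneg (h : WTraj γ S t ε n x z) (i : ℕ) (k : Fin 2) : 0 ≤ VV γ S t x z i k :=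
  hat_nonneg _ h.nonneg k

lemma WTraj.N_le (H : Wk γ S t C) (h : WTraj γ S t ε n x z) (i : ℕ) :
    Nn γ S t (VV γ S t x z i) ≤ 1 := (WNn_hat H _ _).trans h.le

lemma WTraj.N_gt (H : Wk γ S t C) (h : WTraj γ S t ε n x z) {i : ℕ} (hi : i ≤ n) :
    1 - ε < Nn γ S t (VV γ S t x z i) := by
  obtain ⟨m, rfl⟩ := Nat.exists_eq_add_of_le hi
  have h1 := h.lt
  rw [VV_add] at h1
  exact lt_of_lt_of_le h1 (WNn_hat H _ _)

lemma WTraj.l1_le (H : Wk γ S t C) (h : WTraj γ S t ε n x z) (i : ℕ) :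
    l1 (VV γ S t x z i) ≤ 1 := (Wl1_le_Nn H _).trans (h.N_le H i)

lemma WTraj.l1_ge (H : Wk γ S t C) (h : WTraj γ S t ε n x z) (hε2 : ε ≤ 1 / 2) {i : ℕ}
    (hi : i ≤ n) : 1 / (2 * C) ≤ l1 (VV γ S t x z i) := by
  have h1 := h.N_gt H hi
  have h2 := WNn_le H (VV γ S t x z i)
  have hC := H.hC
  rw [div_le_iff₀ (by positivity)]
  nlinarith

end

end Pool.Agent.Q229.JE
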